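import Pool.Agent.R963.GK.Cross

/-! MP_819a4a_pr: `g(k+1;r) ≤ g(k;r)` for `r ≤ k` (proof idea of helper860). -/

namespace R986.MH

open Finset

lemma pow_sub_le {a b : ℝ} (ha : 0 ≤ a) (hab : a ≤ b) (n : ℕ) :
    b ^ (n + 1) - a ^ (n + 1) ≤ (b - a) * ((n + 1) * b ^ n) := by
  have hb : 0 ≤ b := ha.trans hab
  induction n with
  | zero => simp
  | succ n ih =>
    have h1 : a ^ (n + 1) ≤ b ^ (n + 1) := pow_le_pow_left₀ ha hab _
    have h2 : b ^ (n + 1 + 1) - a ^ (n + 1 + 1)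
        = b * (b ^ (n + 1) - a ^ (n + 1)) + a ^ (n + 1) * (b - a) := by ring
    rw [h2]
    have h3 : b * (b ^ (n + 1) - a ^ (n + 1)) ≤ b * ((b - a) * ((n + 1) * b ^ n)) :=
      mul_le_mul_of_nonneg_left ih hb
    have h4 : a ^ (n + 1) * (b - a) ≤ b ^ (n + 1) * (b - a) :=
      mul_le_mul_of_nonneg_right h1 (by linarith)
    push_cast
    have e : b * ((b - a) * ((n + 1) * b ^ n)) + b ^ (n + 1) * (b - a)
        = (b - a) * (((n : ℝ) + 1 + 1) * b ^ (n + 1)) := by ring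
    linarith

lemma le_pow_sub {a b : ℝ} (ha : 0 ≤ a) (hab : a ≤ b) (n : ℕ) :
    (b - a) * ((n + 1) * a ^ n) ≤ b ^ (n + 1) - a ^ (n + 1) := by
  have hb : 0 ≤ b := ha.trans hab
  induction n with
  | zero => simp
  | succ n ih =>
    have h1 : a ^ (n + 1) ≤ b ^ (n + 1) := pow_le_pow_left₀ ha hab _
    have h2 : b ^ (n + 1 + 1) - a ^ (n + 1 + 1)
        = a * (b ^ (n + 1) - a ^ (n + 1)) + b ^ (n + 1) * (b - a) := by ring
    rw [h2]
    have h3 : a * ((b - a) * ((n + 1) * a ^ n)) ≤ a * (b ^ (n + 1) - a ^ (n + 1)) :=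
      mul_le_mul_of_nonneg_left ih ha
    have h4 : a ^ (n + 1) * (b - a) ≤ b ^ (n + 1) * (b - a) :=
      mul_le_mul_of_nonneg_right h1 (by linarith)
    push_cast
    have e : a * ((b - a) * ((n + 1) * a ^ n)) + a ^ (n + 1) * (b - a)
        = (b - a) * (((n : ℝ) + 1 + 1) * a ^ (n + 1)) := by ring
    linarith

/-- the basic exponential bound -/
lemma ratio_pow {k : ℕ} (hk : 26 ≤ k) (m : ℕ) (hm : m ≤ 5) :
    Real.exp (-((m : ℝ) * 25 / (26 - m))) ≤ (((k : ℝ) - m) / k) ^ (k - 1) := by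
  have hk' : (26 : ℝ) ≤ k := by exact_mod_cast hk
  have hm' : (m : ℝ) ≤ 5 := by exact_mod_cast hm
  have hm0 : (0 : ℝ) ≤ m := by positivity
  have hkm : 0 < (k : ℝ) - m := by linarith
  have h1 : Real.exp (-((m : ℝ) / (k - m))) ≤ ((k : ℝ) - m) / k := by
    rw [Real.exp_neg, inv_le_comm₀ (Real.exp_pos _) (by positivity)]
    have := Real.add_one_le_exp ((m : ℝ) / (k - m))
    refine le_trans (le_of_eq ?_) this
    field_simp
    ring
  have h2 : Real.exp (-((m : ℝ) / (k - m))) ^ (k - 1) ≤ (((k : ℝ) - m) / k) ^ (k - 1) :=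
    pow_le_pow_left₀ (Real.exp_pos _).le h1 _
  refine le_trans ?_ h2
  rw [← Real.exp_nat_mul, Real.exp_le_exp]
  have hc : ((k - 1 : ℕ) : ℝ) = (k : ℝ) - 1 := by
    rw [Nat.cast_sub (by omega)]; simp
  rw [hc]
  have h26 : (0 : ℝ) < 26 - m := by linarith
  have : (m : ℝ) * 25 / (26 - m) - ((k : ℝ) - 1) * (m / (k - m))
      = m * (m - 1) * (k - 26) / ((26 - m) * (k - m)) := by
    field_simp
    ring
  have hmm : 0 ≤ (m : ℝ) * (m - 1) := by
    rcases Nat.eq_zero_or_pos m with h | h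
    · subst h; simp
    · have : (1 : ℝ) ≤ m := by exact_mod_cast h
      exact mul_nonneg hm0 (by linarith)
  have h3 : 0 ≤ (m : ℝ) * (m - 1) * (k - 26) / ((26 - m) * (k - m)) :=
    div_nonneg (mul_nonneg hmm (by linarith)) (mul_pos h26 hkm).le
  linarith

lemma exp_neg_one_ge : (0.3678 : ℝ) ≤ Real.exp (-1) := by
  rw [Real.exp_neg, le_inv_comm₀ (by norm_num) (Real.exp_pos _)]
  have := Real.exp_one_lt_d9
  norm_num at this ⊢
  linarith

lemma exp_aux (n : ℕ) (x : ℝ) (hx : -1 ≤ x) :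
    (0.3678 : ℝ) ^ n * (1 + x) ≤ Real.exp (-(n : ℝ) + x) := by
  rw [Real.exp_add]
  have h1 : (0.3678 : ℝ) ^ n ≤ Real.exp (-(n : ℝ)) := by
    have : Real.exp (-(n : ℝ)) = Real.exp (-1) ^ n := by
      rw [← Real.exp_nat_mul]; congr 1; ring
    rw [this]
    exact pow_le_pow_left₀ (by norm_num) exp_neg_one_ge n
  have h2 : 1 + x ≤ Real.exp x := by
    have := Real.add_one_le_exp x
    linarith
  exact mul_le_mul h1 h2 (by linarith) (Real.exp_pos _).le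

lemma five_terms {k : ℕ} (hk : 26 ≤ k) :
    (1 : ℝ) ≤ ∑ m ∈ Icc (1 : ℕ) 5, (2 * (m : ℝ) - 1) * (((k : ℝ) - m) / k) ^ (k - 1) := by
  have r1 := ratio_pow hk 1 (by norm_num)
  have r2 := ratio_pow hk 2 (by norm_num)
  have r3 := ratio_pow hk 3 (by norm_num)
  have r4 := ratio_pow hk 4 (by norm_num)
  have r5 := ratio_pow hk 5 (by norm_num)
  have e1 := exp_aux 1 0 (by norm_num)
  have e2 := exp_aux 2 (-(1 / 12)) (by norm_num)
  have e3 := exp_aux 3 (-(6 / 23)) (by norm_num)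
  have e4 := exp_aux 5 (5 / 11) (by norm_num)
  have e5 := exp_aux 6 (1 / 21) (by norm_num)
  norm_num at r1 r2 r3 r4 r5 e1 e2 e3 e4 e5
  simp only [Finset.sum_Icc_succ_top (by norm_num : (1 : ℕ) ≤ 4 + 1),
    Finset.sum_Icc_succ_top (by norm_num : (1 : ℕ) ≤ 3 + 1),
    Finset.sum_Icc_succ_top (by norm_num : (1 : ℕ) ≤ 2 + 1),
    Finset.sum_Icc_succ_top (by norm_num : (1 : ℕ) ≤ 1 + 1), Finset.Icc_self,
    Finset.sum_singleton]
  norm_num
  linarith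

lemma big_case {k : ℕ} (hk : 26 ≤ k) :
    (2 * (k : ℝ) + 1) ^ k * ∑ i ∈ Icc 1 k, (i : ℝ) ^ k
      ≤ (2 * (k : ℝ) - 1) ^ k * ∑ i ∈ Icc 1 (k + 1), (i : ℝ) ^ k := by
  have hk' : (26 : ℝ) ≤ k := by exact_mod_cast hk
  obtain ⟨n, rfl⟩ : ∃ n, k = n + 1 := ⟨k - 1, by omega⟩
  set b : ℕ → ℝ := fun i => (i : ℝ) * (2 * ((n + 1 : ℕ) : ℝ) + 1) with hb
  set a : ℕ → ℝ := fun i => (i : ℝ) * (2 * ((n + 1 : ℕ) : ℝ) - 1) with ha
  have hL : (2 * ((n + 1 : ℕ) : ℝ) + 1) ^ (n + 1) * ∑ i ∈ Icc 1 (n + 1), (i : ℝ) ^ (n + 1)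
      = ∑ i ∈ Icc 1 (n + 1), b i ^ (n + 1) := by
    rw [Finset.mul_sum]
    exact Finset.sum_congr rfl (fun i _ => by simp only [hb]; rw [mul_pow]; ring)
  have hR : (2 * ((n + 1 : ℕ) : ℝ) - 1) ^ (n + 1) * ∑ i ∈ Icc 1 (n + 1 + 1), (i : ℝ) ^ (n + 1)
      = ∑ i ∈ Icc 1 (n + 1 + 1), a i ^ (n + 1) := by
    rw [Finset.mul_sum]
    exact Finset.sum_congr rfl (fun i _ => by simp only [ha]; rw [mul_pow]; ring)
  rw [hL, hR]
  have ha0 : ∀ i, 0 ≤ a i := by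
    intro i
    simp only [ha]
    have : (0 : ℝ) ≤ 2 * ((n + 1 : ℕ) : ℝ) - 1 := by linarith
    positivity
  have hb0 : ∀ i, 0 ≤ b i := by
    intro i
    simp only [hb]
    positivity
  -- reorganise the right side
  have hRs : ∑ i ∈ Icc 1 (n + 1 + 1), a i ^ (n + 1)
      = a 1 ^ (n + 1) + ∑ i ∈ Icc 1 n, a (i + 1) ^ (n + 1) + a (n + 1 + 1) ^ (n + 1) := by
    rw [Finset.sum_Icc_succ_top (by omega)]
    congr 1
    have : ∀ N, ∑ i ∈ Icc 1 (N + 1), a i ^ (n + 1)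
        = a 1 ^ (n + 1) + ∑ i ∈ Icc 1 N, a (i + 1) ^ (n + 1) := by
      intro N
      induction N with
      | zero => simp
      | succ N ih =>
        rw [Finset.sum_Icc_succ_top (by omega), ih, Finset.sum_Icc_succ_top (by omega)]
        ring
    exact this n
  have hLs : ∑ i ∈ Icc 1 (n + 1), b i ^ (n + 1)
      = ∑ i ∈ Icc 1 n, b i ^ (n + 1) + b (n + 1) ^ (n + 1) := by
    rw [Finset.sum_Icc_succ_top (by omega)]
  rw [hRs, hLs]
  have hgap : ∀ i ∈ Icc 1 n, (2 * ((n : ℝ) + 1 - i) - 1) * ((n + 1) * b i ^ n)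
      ≤ a (i + 1) ^ (n + 1) - b i ^ (n + 1) := by
    intro i hi
    have hin : i ≤ n := (Finset.mem_Icc.mp hi).2
    have hin' : (i : ℝ) ≤ n := by exact_mod_cast hin
    have hd : a (i + 1) - b i = 2 * ((n : ℝ) + 1 - i) - 1 := by
      simp only [ha, hb]
      push_cast
      ring
    have h1 := le_pow_sub (hb0 i) (show b i ≤ a (i + 1) by linarith) n
    rw [hd] at h1
    exact h1
  have htop : b (n + 1) ^ (n + 1) - a (n + 1 + 1) ^ (n + 1) ≤ (n + 1) * b (n + 1) ^ n := by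
    have hd : b (n + 1) - a (n + 1 + 1) = 1 := by
      simp only [ha, hb]
      push_cast
      ring
    have h1 := pow_sub_le (ha0 (n + 1 + 1)) (show a (n + 1 + 1) ≤ b (n + 1) by linarith) n
    rw [hd, one_mul] at h1
    exact h1
  have hmain : (n + 1) * b (n + 1) ^ n
      ≤ ∑ i ∈ Icc 1 n, (2 * ((n : ℝ) + 1 - i) - 1) * ((n + 1) * b i ^ n) := by
    have h5 := five_terms hk
    have hn1 : ((n + 1 : ℕ) : ℝ) = (n : ℝ) + 1 := by push_cast; ring
    have hpos : (0 : ℝ) < (n : ℝ) + 1 := by positivity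
    have hsub : ∑ i ∈ (Icc (1 : ℕ) 5).image (fun m => n + 1 - m),
        (2 * ((n : ℝ) + 1 - i) - 1) * ((n + 1) * b i ^ n)
        ≤ ∑ i ∈ Icc 1 n, (2 * ((n : ℝ) + 1 - i) - 1) * ((n + 1) * b i ^ n) := by
      refine Finset.sum_le_sum_of_subset_of_nonneg ?_ ?_
      · intro i hi
        rw [Finset.mem_image] at hi
        obtain ⟨m, hm, rfl⟩ := hi
        rw [Finset.mem_Icc] at hm ⊢
        omega
      · intro i hi _
        have hin : i ≤ n := (Finset.mem_Icc.mp hi).2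
        have hin' : (i : ℝ) ≤ n := by exact_mod_cast hin
        have := hb0 i
        exact mul_nonneg (by linarith) (by positivity)
    refine le_trans ?_ hsub
    rw [Finset.sum_image (by
      intro x hx y hy hxy
      have h1 := Finset.mem_Icc.mp hx
      have h2 := Finset.mem_Icc.mp hy
      simp only at hxy
      omega)]
    have hterm : ∀ m ∈ Icc (1 : ℕ) 5, (2 * ((n : ℝ) + 1 - ((n + 1 - m : ℕ) : ℝ)) - 1)
        * ((n + 1) * b (n + 1 - m) ^ n)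
        = ((n + 1) * b (n + 1) ^ n)
          * ((2 * (m : ℝ) - 1) * ((((n + 1 : ℕ) : ℝ) - m) / ((n + 1 : ℕ) : ℝ)) ^ (n + 1 - 1)) := by
      intro m hm
      have hm2 := Finset.mem_Icc.mp hm
      have hcast : ((n + 1 - m : ℕ) : ℝ) = (n : ℝ) + 1 - m := by
        rw [Nat.cast_sub (by omega)]; push_cast; ring
      have hbm : b (n + 1 - m) = b (n + 1) * ((((n + 1 : ℕ) : ℝ) - m) / ((n + 1 : ℕ) : ℝ)) := by
        simp only [hb]
        rw [hcast, hn1]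
        field_simp
      rw [hbm, mul_pow, hcast]
      have : n + 1 - 1 = n := by omega
      rw [this]
      ring
    rw [Finset.sum_congr rfl hterm, ← Finset.mul_sum]
    have := hb0 (n + 1)
    exact le_mul_of_one_le_right (by positivity) h5
  have hsum := Finset.sum_le_sum hgap
  rw [Finset.sum_sub_distrib] at hsum
  have := pow_nonneg (ha0 1) (n + 1)
  linarith

lemma small_case {k : ℕ} (h1 : 1 ≤ k) (h2 : k ≤ 25) :
    (2 * k + 1) ^ k * ∑ i ∈ Icc 1 k, i ^ k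
      ≤ (2 * k - 1) ^ k * ∑ i ∈ Icc 1 (k + 1), i ^ k := by
  interval_cases k <;> decide +kernel

/-- `g(k+1;k) ≤ g(k;k)` -/
theorem at_k {k : ℕ} (hk : 1 ≤ k) : GK.g (k + 1) k ≤ GK.g k k := by
  have hk1 : (1 : ℝ) ≤ k := by exact_mod_cast hk
  have hS : ∀ j : ℕ, GK.S j (k : ℝ) = ∑ i ∈ Icc 1 j, (i : ℝ) ^ k := by
    intro j
    unfold GK.S
    exact Finset.sum_congr rfl (fun i _ => Real.rpow_natCast _ _)
  have hSpos : ∀ j : ℕ, 1 ≤ j → 0 < ∑ i ∈ Icc 1 j, (i : ℝ) ^ k := by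
    intro j hj
    refine Finset.sum_pos (fun i hi => ?_) ⟨1, by simp [hj]⟩
    have : 1 ≤ i := (Finset.mem_Icc.mp hi).1
    have : (0 : ℝ) < i := by exact_mod_cast this
    positivity
  unfold GK.g
  rw [hS, hS, Real.rpow_natCast, Real.rpow_natCast,
    div_le_div_iff₀ (hSpos _ (by omega)) (hSpos _ hk)]
  have e : (2 * ((k + 1 : ℕ) : ℝ) - 1) = 2 * (k : ℝ) + 1 := by push_cast; ring
  rw [e]
  rcases le_or_gt 26 k with h | h
  · exact big_case h
  · have := small_case hk (by omega)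
    have h2 : ((((2 * k + 1) ^ k * ∑ i ∈ Icc 1 k, i ^ k : ℕ)) : ℝ)
        ≤ (((2 * k - 1) ^ k * ∑ i ∈ Icc 1 (k + 1), i ^ k : ℕ) : ℝ) := by exact_mod_cast this
    push_cast [Nat.cast_sub (show 1 ≤ 2 * k by omega)] at h2
    exact h2

/-- `g(k+1;r) ≤ g(k;r)` for `r ≤ k` -/
theorem step_le {k : ℕ} (hk : 1 ≤ k) {r : ℝ} (hr : r ≤ k) : GK.g (k + 1) r ≤ GK.g k r := by
  rcases hr.eq_or_lt with h | h
  · rw [h]; exact at_k hk
  · by_contra hcon
    push Not at hcon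
    have := GK.cross hk h hcon.le
    exact absurd (at_k hk) (not_le.mpr this)

end R986.MH
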