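import Pool.Agent.R963.GK.Defs

/-! MP_819a4a_pr: the case `0 < r ≤ 1` and the inequality `g(k+1;k) ≤ g(k;k)` (helper986;
the second proof is due to helper860). -/

namespace R986.MH

open Finset

lemma sum_min_le (k b : ℕ) (h : k ≤ b) : 2 * ∑ i ∈ Icc 1 k, min i b = k * (k + 1) := by
  induction k with
  | zero => simp
  | succ n ih =>
    rw [Finset.sum_Icc_succ_top (by omega), mul_add, ih (by omega), min_eq_left h]
    ring

lemma sum_min_ge (b d : ℕ) : 2 * ∑ i ∈ Icc 1 (b + d), min i b = b * (b + 1) + 2 * d * b := by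
  induction d with
  | zero => simpa using sum_min_le b b le_rfl
  | succ n ih =>
    rw [← add_assoc, Finset.sum_Icc_succ_top (by omega), mul_add, ih, min_eq_right (by omega)]
    ring

lemma sum_min (k m : ℕ) (hm : m ≤ k) :
    m * (2 * (k - m) + 1) ≤ ∑ i ∈ Icc 1 k, min i (2 * (k - m) + 1) := by
  obtain ⟨y, rfl⟩ := Nat.exists_eq_add_of_le hm
  have e : m + y - m = y := by omega
  rw [e]
  by_cases h : m + y ≤ 2 * y + 1
  · have h1 := sum_min_le (m + y) (2 * y + 1) h
    have h2 : 2 * (m * (2 * y + 1)) ≤ (m + y) * (m + y + 1) := by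
      have h3 : (0 : ℤ) ≤ ((m : ℤ) - y) * ((m : ℤ) - y - 1) := by
        rcases le_or_gt (m : ℤ) y with h4 | h4
        · nlinarith
        · have : (y : ℤ) + 1 ≤ m := h4
          nlinarith
      have : (2 * (m * (2 * y + 1)) : ℤ) ≤ (m + y) * (m + y + 1) := by nlinarith
      exact_mod_cast this
    omega
  · obtain ⟨d, hd⟩ : ∃ d, m + y = (2 * y + 1) + d := ⟨m + y - (2 * y + 1), by omega⟩
    have h1 := sum_min_ge (2 * y + 1) d
    rw [← hd] at h1
    have hm' : m = y + 1 + d := by omega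
    have h2 : 2 * (m * (2 * y + 1)) = (2 * y + 1) * (2 * y + 1 + 1) + 2 * d * (2 * y + 1) := by
      rw [hm']; ring
    omega

/-- the case `0 ≤ r ≤ 1` -/
theorem claim_le_one {r : ℝ} (hr0 : 0 ≤ r) (hr1 : r ≤ 1) {k m : ℕ} (hmk : m ≤ k) :
    (m : ℝ) * (2 * ((k : ℝ) - m) + 1) ^ r ≤ GK.S k r := by
  set b : ℕ := 2 * (k - m) + 1 with hb
  have hbr : (2 * ((k : ℝ) - m) + 1) = (b : ℝ) := by
    rw [hb]; push_cast [Nat.cast_sub hmk]; ring
  have hb0 : (0 : ℝ) < b := by
    have : 0 < b := by omega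
    exact_mod_cast this
  rw [hbr]
  have hterm : ∀ i ∈ Icc 1 k, (b : ℝ) ^ r * ((min i b : ℕ) / (b : ℝ)) ≤ (i : ℝ) ^ r := by
    intro i hi
    have hi1 : 1 ≤ i := (Finset.mem_Icc.mp hi).1
    have hi0 : (0 : ℝ) < i := by exact_mod_cast hi1
    rcases le_or_gt b i with h | h
    · rw [min_eq_right h, div_self hb0.ne', mul_one]
      exact Real.rpow_le_rpow hb0.le (by exact_mod_cast h) hr0
    · rw [min_eq_left h.le]
      have hx0 : 0 < (i : ℝ) / b := by positivity
      have hx1 : (i : ℝ) / b ≤ 1 := by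
        rw [div_le_one hb0]
        exact_mod_cast h.le
      have h1 : (i : ℝ) / b ≤ ((i : ℝ) / b) ^ r := by
        have := Real.rpow_le_rpow_of_exponent_ge hx0 hx1 hr1
        simpa using this
      have h2 : (i : ℝ) ^ r = (b : ℝ) ^ r * ((i : ℝ) / b) ^ r := by
        rw [← Real.mul_rpow hb0.le hx0.le]
        congr 1
        field_simp
      rw [h2]
      exact mul_le_mul_of_nonneg_left h1 (by positivity)
  have hsum := Finset.sum_le_sum hterm
  unfold GK.S
  refine le_trans ?_ hsum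
  rw [← Finset.mul_sum, ← Finset.sum_div, ← Nat.cast_sum]
  have h3 : ((m * b : ℕ) : ℝ) ≤ ((∑ i ∈ Icc 1 k, min i b : ℕ) : ℝ) := by
    exact_mod_cast sum_min k m hmk
  have h4 : (m : ℝ) ≤ ((∑ i ∈ Icc 1 k, min i b : ℕ) : ℝ) / b := by
    rw [le_div_iff₀ hb0]
    push_cast at h3 ⊢
    exact h3
  calc (m : ℝ) * (b : ℝ) ^ r = (b : ℝ) ^ r * m := by ring
    _ ≤ _ := mul_le_mul_of_nonneg_left h4 (by positivity)

end R986.MH
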