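import Pool.Agent.R963.GK.MH
import Pool.Agent.R986.MH.Small
import Pool.Agent.R986.MH.Ceil

/-! MP_819a4a_pr: definitions with the general Metropolis-Hastings acceptance probability and the
assembly (helper986). -/

open scoped ENNReal

namespace R986.MH

/-- A target: a symmetric pmf on `ℤ`, nonincreasing on `{0,1,2,…}`, not a point mass. -/
structure Target (π : ℤ → ℝ) : Prop where
  nonneg : ∀ x, 0 ≤ π x
  sum_one : HasSum π 1
  symm : ∀ x, π (-x) = π x
  unimodal : ∀ x y : ℤ, 0 ≤ x → x ≤ y → π y ≤ π x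
  nondeg : ∀ x, π x ≠ 1

/-- A proposal step distribution: a symmetric pmf on `ℤ` supported on the odd integers. -/
structure Proposal (φ : ℤ → ℝ) : Prop where
  nonneg : ∀ z, 0 ≤ φ z
  sum_one : HasSum φ 1
  symm : ∀ z, φ (-z) = φ z
  odd : ∀ z, φ z ≠ 0 → Odd z

open Classical in
/-- the Metropolis-Hastings acceptance probability of the move `x → x + z` -/
noncomputable def accept (π φ : ℤ → ℝ) (x z : ℤ) : ℝ :=
  if π x * φ z = 0 then 1 else min 1 (π (x + z) * φ (-z) / (π x * φ z))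

/-- `E |X₀|^r`, `X₀ ∼ π` -/
noncomputable def moment (π : ℤ → ℝ) (r : ℝ) : ℝ≥0∞ :=
  ∑' x : ℤ, ENNReal.ofReal (π x * |(x : ℝ)| ^ r)

/-- `E |X₁ - X₀|^r` for the stationary chain: `X₀ = x ∼ π`, `Z = z ∼ φ` independent,
`X₁ = x + z` with probability `accept π φ x z` and `X₁ = x` otherwise. -/
noncomputable def jumpMoment (π φ : ℤ → ℝ) (r : ℝ) : ℝ≥0∞ :=
  ∑' x : ℤ, ∑' z : ℤ, ENNReal.ofReal (π x * φ z *
    (accept π φ x z * |((x + z : ℤ) : ℝ) - (x : ℝ)| ^ r
      + (1 - accept π φ x z) * |(x : ℝ) - (x : ℝ)| ^ r))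

/-- `s(r)` -/
noncomputable def s (r : ℝ) : ℝ≥0∞ :=
  ⨆ (π : ℤ → ℝ) (φ : ℤ → ℝ) (_ : Target π) (_ : moment π r < ∞) (_ : Proposal φ),
    jumpMoment π φ r / moment π r

lemma target_iff (π : ℤ → ℝ) : Target π ↔ GK.IsTarget π := by
  constructor
  · intro h
    refine ⟨h.nonneg, h.sum_one, h.symm, ?_, h.nondeg 0⟩
    have habs : ∀ x : ℤ, π x = π |x| := by
      intro x
      rcases abs_choice x with h1 | h1
      · rw [h1]
      · rw [h1, h.symm]
    intro x y hxy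
    rw [habs x, habs y]
    exact h.unimodal _ _ (abs_nonneg x) hxy
  · intro h
    refine ⟨h.nonneg, h.sum_one, h.symm, ?_, ?_⟩
    · intro x y hx hxy
      exact h.unimodal x y (by rw [abs_of_nonneg hx, abs_of_nonneg (hx.trans hxy)]; exact hxy)
    · intro x hx
      by_cases h0 : x = 0
      · subst h0; exact h.nondeg hx
      · have h1 : π x ≤ π 0 := h.unimodal 0 x (by simp)
        have h2 : ∑ y ∈ ({x, 0} : Finset ℤ), π y ≤ 1 :=
          sum_le_hasSum _ (fun i _ => h.nonneg i) h.sum_one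
        rw [Finset.sum_pair h0] at h2
        linarith

lemma proposal_iff (φ : ℤ → ℝ) : Proposal φ ↔ GK.IsProposal φ := by
  constructor
  · intro h
    refine ⟨h.nonneg, h.sum_one, h.symm, ?_⟩
    intro z hz
    by_contra hne
    exact (Int.not_even_iff_odd.mpr (h.odd z hne)) hz
  · intro h
    refine ⟨h.nonneg, h.sum_one, h.symm, ?_⟩
    intro z hz
    rw [← Int.not_even_iff_odd]
    intro he
    exact hz (h.even z he)

lemma jump_eq {π φ : ℤ → ℝ} (hφ : Proposal φ) (r : ℝ) : jumpMoment π φ r = GK.jump π φ r := by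
  unfold jumpMoment GK.jump
  refine tsum_congr (fun x => tsum_congr (fun z => ?_))
  by_cases h : π x * φ z = 0
  · rw [h]; simp
  · have hx : π x ≠ 0 := left_ne_zero_of_mul h
    have hz : φ z ≠ 0 := right_ne_zero_of_mul h
    have : accept π φ x z = GK.acc π x (x + z) := by
      unfold accept GK.acc
      rw [if_neg h, hφ.symm z, mul_div_mul_right _ _ hz]
    rw [this]

lemma s_eq (r : ℝ) : s r = GK.s r := by
  have hm : ∀ π : ℤ → ℝ, moment π r = GK.mom π r := fun _ => rfl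
  unfold s GK.s
  refine le_antisymm ?_ ?_
  · refine iSup_le fun π => iSup_le fun φ => iSup_le fun h1 => iSup_le fun h2 =>
      iSup_le fun h3 => ?_
    refine le_iSup_of_le π (le_iSup_of_le φ (le_iSup_of_le ((target_iff π).mp h1)
      (le_iSup_of_le (by rw [← hm]; exact h2) (le_iSup_of_le ((proposal_iff φ).mp h3) ?_))))
    rw [jump_eq h3, hm]
  · refine iSup_le fun π => iSup_le fun φ => iSup_le fun h1 => iSup_le fun h2 =>
      iSup_le fun h3 => ?_
    refine le_iSup_of_le π (le_iSup_of_le φ (le_iSup_of_le ((target_iff π).mpr h1)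
      (le_iSup_of_le (by rw [hm]; exact h2) (le_iSup_of_le ((proposal_iff φ).mpr h3) ?_))))
    rw [jump_eq ((proposal_iff φ).mpr h3), hm]

lemma S_pos {k : ℕ} (hk : 1 ≤ k) (r : ℝ) : 0 < GK.S k r := GK.S_pos hk r

lemma g_nonneg {k : ℕ} (hk : 1 ≤ k) (r : ℝ) : 0 ≤ GK.g k r := by
  unfold GK.g
  have : (1 : ℝ) ≤ k := by exact_mod_cast hk
  exact div_nonneg (Real.rpow_nonneg (by linarith) _) (S_pos hk r).le

lemma g_one (r : ℝ) : GK.g 1 r = 1 := by
  unfold GK.g GK.S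
  norm_num

lemma g_le_ceil {r : ℝ} (d : ℕ) (hr : 0 < r) :
    GK.g (⌈r⌉₊ + d) r ≤ GK.g ⌈r⌉₊ r := by
  induction d with
  | zero => exact le_rfl
  | succ d ih =>
    refine le_trans ?_ ih
    rw [← add_assoc]
    have h1 : 1 ≤ ⌈r⌉₊ := Nat.ceil_pos.mpr hr
    refine step_le (by omega) ?_
    have := Nat.le_ceil r
    push_cast
    have hd : (0 : ℝ) ≤ d := by positivity
    linarith

/-- assembly, from the analytic inequality for `r ≥ 1` -/
theorem main (key : ∀ (r : ℝ), 1 ≤ r → ∀ k m : ℕ, 1 ≤ m → m ≤ k →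
      ∃ j : ℕ, 1 ≤ j ∧ (m : ℝ) * (2 * ((k : ℝ) - m) + 1) ^ r ≤ GK.g j r * GK.S k r)
    (r : ℝ) (hr : 0 < r) :
    ∃ k₀ : ℕ, 1 ≤ k₀ ∧ k₀ ≤ ⌈r⌉₊ ∧ s r = ENNReal.ofReal (GK.g k₀ r) ∧
      ∀ j : ℕ, 1 ≤ j → GK.g j r ≤ GK.g k₀ r := by
  have hceil : 1 ≤ ⌈r⌉₊ := Nat.ceil_pos.mpr hr
  rcases le_or_gt 1 r with h1 | h1
  · obtain ⟨k₀, hk₀, hmax⟩ := Finset.exists_max_image (Finset.Icc 1 ⌈r⌉₊) (fun k => GK.g k r)
      ⟨1, by simp [hceil]⟩
    rw [Finset.mem_Icc] at hk₀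
    have hall : ∀ j : ℕ, 1 ≤ j → GK.g j r ≤ GK.g k₀ r := by
      intro j hj
      rcases le_or_gt j ⌈r⌉₊ with h | h
      · exact hmax j (Finset.mem_Icc.mpr ⟨hj, h⟩)
      · obtain ⟨d, rfl⟩ := Nat.exists_eq_add_of_le h.le
        exact (g_le_ceil d hr).trans (hmax _ (Finset.mem_Icc.mpr ⟨hceil, le_rfl⟩))
    refine ⟨k₀, hk₀.1, hk₀.2, ?_, hall⟩
    rw [s_eq]
    refine le_antisymm ?_ (GK.s_ge hr hk₀.1)
    refine GK.s_le hr (g_nonneg hk₀.1 r) ?_
    intro k m hm hmk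
    obtain ⟨j, hj, hle⟩ := key r h1 k m hm hmk
    exact hle.trans (mul_le_mul_of_nonneg_right (hall j hj) (S_pos (hm.trans hmk) r).le)
  · have hall : ∀ j : ℕ, 1 ≤ j → GK.g j r ≤ GK.g 1 r := by
      intro j hj
      rw [g_one]
      unfold GK.g
      rw [div_le_one (S_pos hj r)]
      have := claim_le_one hr.le h1.le hj
      have e : (2 * ((j : ℝ) - (1 : ℕ)) + 1) = 2 * (j : ℝ) - 1 := by push_cast; ring
      rw [e] at this
      simpa using this
    refine ⟨1, le_rfl, hceil, ?_, hall⟩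
    rw [s_eq]
    refine le_antisymm ?_ (GK.s_ge hr le_rfl)
    refine GK.s_le hr (g_nonneg le_rfl r) ?_
    intro k m hm hmk
    rw [g_one, one_mul]
    exact claim_le_one hr.le h1.le hmk

end R986.MH
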